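import Pool.Agent.H29.FX.Targets

/-!
# Triples with few exponents, row BND: bounds for the values at a solution
-/

set_option autoImplicit false

open Finset MvPolynomial

namespace Pool.Agent.H54.TFX

open Pool.Agent.H29.FX

theorem bnd_mono {n : ℕ} {Y : ℝ} (hY : 1 ≤ Y) {B B' : ℕ} (hB : B ≤ B') {f : Pl n}
    (h : Cx Y B f) : Cx Y B' f :=
  ⟨h.deg.trans hB, h.le.trans (pow_le_pow_right₀ hY hB)⟩

theorem bnd_ev (hNRM : T_NRM) {n b : ℕ} {Y : ℝ} (hY : 1 ≤ Y) {z : Fin n → ℤ}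
    (hz : ∀ v, |(z v : ℝ)| ≤ Y) {f : Pl n} (h : Cx Y b f) :
    |((eval z f : ℤ) : ℝ)| ≤ Y ^ (2 * b) := by
  have h1 := (hNRM n).2.2.2.2.2.2.2 f Y z hY hz
  calc _ ≤ nm f * Y ^ f.totalDegree := h1
    _ ≤ Y ^ b * Y ^ b :=
        mul_le_mul h.le (pow_le_pow_right₀ hY h.deg) (by positivity) (by positivity)
    _ = Y ^ (2 * b) := by
        rw [← pow_add]
        congr 1
        omega

theorem bnd_prod {ι : Type} (s : Finset ι) (f : ι → ℝ) (h : ∀ i, 1 ≤ f i) :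
    1 ≤ ∏ i ∈ s, f i := by
  calc (1 : ℝ) = ∏ _i ∈ s, (1 : ℝ) := by simp
    _ ≤ ∏ i ∈ s, f i := Finset.prod_le_prod (fun _ _ => zero_le_one) (fun i _ => h i)

theorem bnd_nat {Y : ℝ} (hY : 2 ≤ Y) (m : ℕ) : (m : ℝ) ≤ Y ^ m := by
  have h1 : (m : ℝ) ≤ 2 ^ m := by exact_mod_cast (Nat.lt_two_pow_self (n := m)).le
  exact h1.trans (pow_le_pow_left₀ (by norm_num) hY m)

theorem bnd_lin {Y : ℝ} (hY : 2 ≤ Y) (n s : ℕ) (hs : (s : ℝ) ≤ Y) :
    1 + (n : ℝ) * s ≤ Y ^ (n + 2) := by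
  have hY1 : 1 ≤ Y := by linarith
  have h1 : (n : ℝ) * s ≤ Y ^ n * Y :=
    mul_le_mul (bnd_nat hY n) hs (Nat.cast_nonneg s) (by positivity)
  have h2 : 1 ≤ Y ^ n * Y := by
    rw [← pow_succ]
    exact one_le_pow₀ hY1
  have h3 : Y ^ (n + 2) = (Y ^ n * Y) * Y := by ring
  rw [h3]
  nlinarith

theorem bnd_word (hNRM : T_NRM) (hCXW : T_CXW) (hDFM : T_DFM) {n b s : ℕ} {Y : ℝ}
    (hY : 2 ≤ Y) (hs : (s : ℝ) ≤ Y) (D : Fin n → Dr n) (hD : ∀ i v, Cx Y b (D i (X v)))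
    (α : Fin n → ℕ) (hα : ∑ v, α v ≤ n * s) (f : Pl n) (hf : Cx Y b f) (j : Fin n)
    (z : Fin n → ℤ) (hz : ∀ v, |(z v : ℝ)| ≤ Y) :
    |((eval z (D j (dw D α f)) : ℤ) : ℝ)| ≤
      Y ^ ((2 * n + 5 * b + 2 + ((2 * n + 2 * b + 2) * n + b * n)) * (s + 1)) := by
  have hY1 : 1 ≤ Y := by linarith
  have hY0 : 0 ≤ Y := by linarith
  obtain ⟨hd, hn⟩ := hCXW n b Y D α f hY hD hf
  obtain ⟨h, hh⟩ : ∃ h, h = dw D α f := ⟨_, rfl⟩
  rw [← hh] at hd hn ⊢
  have hα' : (∑ v, (α v : ℝ)) ≤ (n : ℝ) * s := by exact_mod_cast hα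
  have hα0 : (0 : ℝ) ≤ ∑ v, (α v : ℝ) := Finset.sum_nonneg fun v _ => Nat.cast_nonneg _
  have hd2 : h.totalDegree ≤ b * (1 + n * s) :=
    hd.trans (Nat.mul_le_mul_left b (by omega))
  have hbs : (b : ℝ) * (1 + n * s) ≤ Y ^ b * Y ^ (n + 2) :=
    mul_le_mul (bnd_nat hY b) (bnd_lin hY n s hs) (by positivity) (by positivity)
  have hdR : (h.totalDegree : ℝ) ≤ Y ^ b * Y ^ (n + 2) := by
    refine le_trans ?_ hbs
    exact_mod_cast hd2
  have hK1 : (n : ℝ) * Y ^ b * (b * (1 + ∑ v, (α v : ℝ))) ≤ Y ^ (2 * n + 2 * b + 2) := by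
    calc (n : ℝ) * Y ^ b * (b * (1 + ∑ v, (α v : ℝ))) ≤
          Y ^ n * Y ^ b * (b * (1 + n * s)) := by
          apply mul_le_mul
          · exact mul_le_mul_of_nonneg_right (bnd_nat hY n) (by positivity)
          · exact mul_le_mul_of_nonneg_left (by linarith) (Nat.cast_nonneg b)
          · positivity
          · positivity
      _ ≤ Y ^ n * Y ^ b * (Y ^ b * Y ^ (n + 2)) :=
          mul_le_mul_of_nonneg_left hbs (by positivity)
      _ = Y ^ (2 * n + 2 * b + 2) := by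
          rw [← pow_add, ← pow_add, ← pow_add]
          congr 1
          omega
  have hnR : nm h ≤ Y ^ b * Y ^ ((2 * n + 2 * b + 2) * (n * s)) := by
    refine hn.trans ?_
    apply mul_le_mul_of_nonneg_left _ (by positivity)
    calc ((n : ℝ) * Y ^ b * (b * (1 + ∑ v, (α v : ℝ)))) ^ (∑ v, α v) ≤
          (Y ^ (2 * n + 2 * b + 2)) ^ (∑ v, α v) :=
          pow_le_pow_left₀ (by positivity) hK1 _
      _ ≤ (Y ^ (2 * n + 2 * b + 2)) ^ (n * s) :=
          pow_le_pow_right₀ (one_le_pow₀ hY1) hα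
      _ = Y ^ ((2 * n + 2 * b + 2) * (n * s)) := by rw [← pow_mul]
  have hnm0 : 0 ≤ nm h := (hNRM n).1 h
  have hterm : ∀ v, |((eval z (pderiv v h * D j (X v)) : ℤ) : ℝ)| ≤
      (Y ^ b * Y ^ (n + 2)) * (Y ^ b * Y ^ ((2 * n + 2 * b + 2) * (n * s))) *
        Y ^ (b * (1 + n * s)) * Y ^ (2 * b) := by
    intro v
    rw [eval_mul, Int.cast_mul, abs_mul]
    apply mul_le_mul _ (bnd_ev hNRM hY1 hz (hD j v)) (abs_nonneg _) (by positivity)
    obtain ⟨h1, h2⟩ := (hNRM n).2.2.2.2.2.2.1 v h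
    calc |((eval z (pderiv v h) : ℤ) : ℝ)| ≤
          nm (pderiv v h) * Y ^ (pderiv v h).totalDegree :=
          (hNRM n).2.2.2.2.2.2.2 _ Y z hY1 hz
      _ ≤ (h.totalDegree * nm h) * Y ^ (b * (1 + n * s)) :=
          mul_le_mul h1 (pow_le_pow_right₀ hY1 (h2.trans hd2)) (by positivity) (by positivity)
      _ ≤ _ := by
          apply mul_le_mul_of_nonneg_right _ (by positivity)
          exact mul_le_mul hdR hnR hnm0 (by positivity)
  rw [hDFM n (D j) h, map_sum, Int.cast_sum]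
  calc |∑ v, ((eval z (pderiv v h * D j (X v)) : ℤ) : ℝ)| ≤
        ∑ v, |((eval z (pderiv v h * D j (X v)) : ℤ) : ℝ)| := Finset.abs_sum_le_sum_abs _ _
    _ ≤ ∑ _v : Fin n, (Y ^ b * Y ^ (n + 2)) *
        (Y ^ b * Y ^ ((2 * n + 2 * b + 2) * (n * s))) *
        Y ^ (b * (1 + n * s)) * Y ^ (2 * b) := Finset.sum_le_sum fun v _ => hterm v
    _ = n * ((Y ^ b * Y ^ (n + 2)) *
        (Y ^ b * Y ^ ((2 * n + 2 * b + 2) * (n * s))) *
        Y ^ (b * (1 + n * s)) * Y ^ (2 * b)) := by simp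
    _ ≤ Y ^ n * ((Y ^ b * Y ^ (n + 2)) *
        (Y ^ b * Y ^ ((2 * n + 2 * b + 2) * (n * s))) *
        Y ^ (b * (1 + n * s)) * Y ^ (2 * b)) :=
        mul_le_mul_of_nonneg_right (bnd_nat hY n) (by positivity)
    _ = Y ^ (n + (((b + (n + 2)) + (b + (2 * n + 2 * b + 2) * (n * s))) +
        b * (1 + n * s) + 2 * b)) := by
        simp only [pow_add]
    _ ≤ _ := by
        apply pow_le_pow_right₀ hY1
        have e1 : n + (((b + (n + 2)) + (b + (2 * n + 2 * b + 2) * (n * s))) +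
          b * (1 + n * s) + 2 * b) = (2 * n + 5 * b + 2) +
            ((2 * n + 2 * b + 2) * n + b * n) * s := by ring
        have e2 : (2 * n + 5 * b + 2 + ((2 * n + 2 * b + 2) * n + b * n)) * (s + 1) =
          (2 * n + 5 * b + 2) + ((2 * n + 2 * b + 2) * n + b * n) * s +
            ((2 * n + 5 * b + 2) * s + ((2 * n + 2 * b + 2) * n + b * n)) := by ring
        rw [e1, e2]
        exact Nat.le_add_right _ _

theorem pf_BND (hDFM : T_DFM) (hNRM : T_NRM) (hCXT : T_CXT) (hCXW : T_CXW) (hCXL : T_CXL)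
    (hPID : T_PID) : T_BND := by
  intro n B
  obtain ⟨b1, hb1⟩ := hCXT n B
  obtain ⟨b2, hb2⟩ := hCXL n b1
  obtain ⟨b, hb⟩ : ∃ b, b = b1 + b2 := ⟨_, rfl⟩
  obtain ⟨B', hB'⟩ : ∃ B', B' = 2 * n + 5 * b + 2 + ((2 * n + 2 * b + 2) * n + b * n) :=
    ⟨_, rfl⟩
  have hbB : 2 * b + 2 ≤ B' := by omega
  refine ⟨B', ?_⟩
  intro Y M H s pt e u L z hY hM hs hG hL he hz
  have hY1 : 1 ≤ Y := by linarith
  have hY0 : 0 ≤ Y := by linarith
  obtain ⟨hD, hJ⟩ := hb1 Y L hY hG hL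
  have hD' : ∀ i v, Cx Y b (TD L i (X v)) := fun i v => bnd_mono hY1 (by omega) (hD i v)
  have hJ' : Cx Y b (TJ L) := bnd_mono hY1 (by omega) hJ
  have hlg : ∀ i a, Cx Y b (lg pt e (TD L i) a) := fun i a =>
    bnd_mono hY1 (by omega) ((hb2 Y (TD L i) pt e hY (fun v => (he v).2) (hD i)).1 a)
  have hlg2 : ∀ i a a', Cx Y b (lg pt e (TD L i) a - lg pt e (TD L i) a') := fun i a a' =>
    bnd_mono hY1 (by omega) ((hb2 Y (TD L i) pt e hY (fun v => (he v).2) (hD i)).2 a a')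
  have hz1 : ∀ v, (1 : ℝ) ≤ z v := fun v => by exact_mod_cast hz.pos v
  have hzY : ∀ v, |(z v : ℝ)| ≤ Y := by
    intro v
    rw [abs_of_nonneg (by linarith [hz1 v])]
    refine le_trans ?_ hz.le
    classical
    rw [← Finset.mul_prod_erase univ (fun v => (z v : ℝ)) (mem_univ v)]
    have h1 : (1 : ℝ) ≤ ∏ w ∈ univ.erase v, (z w : ℝ) :=
      bnd_prod _ _ hz1
    have h2 := hz1 v
    nlinarith
  have hH1 : 1 ≤ H := by
    obtain ⟨a, ha⟩ := hz.big
    have h1 : (1 : ℝ) ≤ Y ^ M := Real.one_le_rpow hY1 hM.le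
    linarith [hz.sml a]
  have hev : ∀ {f : Pl n}, Cx Y b f → |((eval z f : ℤ) : ℝ)| ≤ Y ^ (2 * b) :=
    fun hf => bnd_ev hNRM hY1 hzY hf
  have hup : Y ^ (2 * b) ≤ Y ^ B' := pow_le_pow_right₀ hY1 (by omega)
  refine ⟨(hev hJ').trans hup, fun i a => (hev (hlg i a)).trans hup, ?_⟩
  intro o j
  cases o with
  | none =>
    have h0 : eval z (∏ v, X v : Pl n) * eval z (TD L j (eqn pt e u)) =
        ∑ a, (u a * eval z (en pt e a)) * eval z (lg pt e (TD L j) a) := by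
      rw [← eval_mul]
      have h1 : (∏ v, X v : Pl n) * TD L j (eqn pt e u) =
          ∑ a, (C (u a) * en pt e a) * lg pt e (TD L j) a := by
        unfold eqn
        rw [map_sum, Finset.mul_sum]
        apply Finset.sum_congr rfl
        intro a _
        have h2 : TD L j (C (u a) * en pt e a) = C (u a) * TD L j (en pt e a) := by
          rw [Derivation.leibniz, derivation_C, smul_zero, add_zero, smul_eq_mul]
        rw [h2, mul_left_comm, hPID n pt e (TD L j) a (fun v => (he v).1), mul_assoc]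
      rw [h1, map_sum]
      apply Finset.sum_congr rfl
      intro a _
      rw [eval_mul, eval_mul, eval_C]
    have h1 : (1 : ℝ) ≤ |((eval z (∏ v, X v : Pl n) : ℤ) : ℝ)| := by
      rw [map_prod]
      simp only [eval_X]
      push_cast
      refine le_trans ?_ (le_abs_self _)
      exact bnd_prod _ _ hz1
    have h2 : |((eval z (∏ v, X v : Pl n) : ℤ) : ℝ)| *
        |((eval z (TD L j (eqn pt e u)) : ℤ) : ℝ)| ≤ 3 * (H * Y ^ (2 * b)) := by
      rw [← abs_mul, ← Int.cast_mul, h0, Int.cast_sum]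
      calc |∑ a, (((u a * eval z (en pt e a)) * eval z (lg pt e (TD L j) a) : ℤ) : ℝ)| ≤
            ∑ a, |(((u a * eval z (en pt e a)) * eval z (lg pt e (TD L j) a) : ℤ) : ℝ)| :=
            Finset.abs_sum_le_sum_abs _ _
        _ ≤ ∑ _a : Fin 3, H * Y ^ (2 * b) := by
            apply Finset.sum_le_sum
            intro a _
            rw [Int.cast_mul, abs_mul]
            exact mul_le_mul (hz.sml a) (hev (hlg j a)) (abs_nonneg _) (by linarith)
        _ = 3 * (H * Y ^ (2 * b)) := by simp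
    change |((eval z (TD L j (eqn pt e u)) : ℤ) : ℝ)| ≤ H * Y ^ (B' * (s + 1))
    have h3 : |((eval z (TD L j (eqn pt e u)) : ℤ) : ℝ)| ≤ 3 * (H * Y ^ (2 * b)) := by
      have h4 := abs_nonneg ((eval z (TD L j (eqn pt e u)) : ℤ) : ℝ)
      nlinarith
    have h5 : Y ^ (2 * b) * 4 ≤ Y ^ (2 * b + 2) := by
      rw [pow_add]
      apply mul_le_mul_of_nonneg_left _ (by positivity)
      nlinarith
    have h6 : Y ^ (2 * b + 2) ≤ Y ^ (B' * (s + 1)) := by
      apply pow_le_pow_right₀ hY1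
      calc 2 * b + 2 ≤ B' := hbB
        _ ≤ B' * (s + 1) := Nat.le_mul_of_pos_right _ (Nat.succ_pos s)
    have h7 : 0 ≤ Y ^ (2 * b) := by positivity
    calc _ ≤ 3 * (H * Y ^ (2 * b)) := h3
      _ ≤ H * (Y ^ (2 * b) * 4) := by nlinarith [mul_nonneg (by linarith : (0 : ℝ) ≤ H) h7]
      _ ≤ H * Y ^ (B' * (s + 1)) := mul_le_mul_of_nonneg_left (h5.trans h6) (by linarith)
  | some o =>
    obtain ⟨i, a, a', α⟩ := o
    have hα : ∑ v, ((α v : ℕ)) ≤ n * s := by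
      calc ∑ v, ((α v : ℕ)) ≤ ∑ _v : Fin n, s := Finset.sum_le_sum fun v _ => (α v).2.le
        _ = n * s := by simp
    have h1 := bnd_word hNRM hCXW hDFM hY hs (TD L) hD' (fun v => (α v : ℕ)) hα _
      (hlg2 i a a') j z hzY
    rw [← hB'] at h1
    change |((eval z (TD L j (dw (TD L) (fun v => (α v : ℕ))
      (lg pt e (TD L i) a - lg pt e (TD L i) a'))) : ℤ) : ℝ)| ≤ H * Y ^ (B' * (s + 1))
    refine h1.trans ?_
    have h2 : 0 ≤ Y ^ (B' * (s + 1)) := by positivity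
    nlinarith

end Pool.Agent.H54.TFX
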