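import Pool.Agent.H29.FX.Targets

/-!
# Triples with few exponents, row CLS: the determinant method for one class
-/

set_option autoImplicit false

open Finset MvPolynomial

namespace Pool.Agent.H54.TFX

open Pool.Agent.H29.FX

/-- exponent vectors supported on `T` with entries less than `k` -/
def clsBox {n : ℕ} (T : Finset (Fin n)) (k : ℕ) : Finset (Fin n → ℕ) :=
  Fintype.piFinset (fun v => if v ∈ T then range k else {0})

theorem cls_mem {n : ℕ} {T : Finset (Fin n)} {k : ℕ} {a : Fin n → ℕ} :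
    a ∈ clsBox T k ↔ ∀ v, (v ∈ T → a v < k) ∧ (v ∉ T → a v = 0) := by
  unfold clsBox
  rw [Fintype.mem_piFinset]
  apply forall_congr'
  intro v
  by_cases hv : v ∈ T
  · simp [hv]
  · simp [hv]

theorem cls_card {n : ℕ} (T : Finset (Fin n)) (k : ℕ) : (clsBox T k).card = k ^ T.card := by
  unfold clsBox
  rw [Fintype.card_piFinset]
  have h1 : ∀ v : Fin n, (if v ∈ T then range k else ({0} : Finset ℕ)).card =
      if v ∈ T then k else 1 := by
    intro v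
    split_ifs <;> simp
  simp_rw [h1]
  rw [Finset.prod_ite_mem, univ_inter, prod_const]

/-- exponent vectors as finitely supported functions -/
noncomputable def clsE {n : ℕ} (a : Fin n → ℕ) : Fin n →₀ ℕ := Finsupp.equivFunOnFinite.symm a

theorem clsE_apply {n : ℕ} (a : Fin n → ℕ) (v : Fin n) : clsE a v = a v := rfl

theorem clsE_inj {n : ℕ} {a b : Fin n → ℕ} (h : clsE a = clsE b) : a = b :=
  Finsupp.equivFunOnFinite.symm.injective h

theorem cls_eval {n : ℕ} (a : Fin n → ℕ) (y : Fin n → ℤ) (c : ℤ) :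
    eval y (monomial (clsE a) c) = c * ∏ v, y v ^ a v := by
  rw [eval_monomial, Finsupp.prod_fintype]
  · rfl
  · intro i
    exact pow_zero _

theorem cls_val {n : ℕ} {a : Fin n → ℕ} {D : ℕ} {y : Fin n → ℤ} {Y : ℝ} (ha : ∀ v, a v ≤ D)
    (hy : ∀ v, 1 ≤ y v) (hY : ∏ v, (y v : ℝ) ≤ Y) :
    |((∏ v, y v ^ a v : ℤ) : ℝ)| ≤ Y ^ D := by
  have h1 : ∀ v, (1 : ℝ) ≤ y v := fun v => by exact_mod_cast hy v
  have h0 : ∀ v, (0 : ℝ) ≤ y v := fun v => by linarith [h1 v]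
  push_cast
  rw [abs_of_nonneg (Finset.prod_nonneg fun v _ => pow_nonneg (h0 v) _)]
  calc ∏ v, (y v : ℝ) ^ a v ≤ ∏ v, (y v : ℝ) ^ D :=
        Finset.prod_le_prod (fun v _ => pow_nonneg (h0 v) _)
          (fun v _ => pow_le_pow_right₀ (h1 v) (ha v))
    _ = (∏ v, (y v : ℝ)) ^ D := Finset.prod_pow _ _ _
    _ ≤ Y ^ D := pow_le_pow_left₀ (Finset.prod_nonneg fun v _ => h0 v) hY D

theorem cls_mat (hLOC : T_LOC) (hDTD : T_DTD) {n p r N : ℕ} (L : Tw n) (x₀ : Fin n → ℤ)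
    (hp : p.Prime) (hr1 : 1 ≤ r) (hr : r ≤ p) (hG : Gd L) (hx : On L x₀)
    (hJ : ¬ (p : ℤ) ∣ eval x₀ (TJ L))
    (y : Fin N → Fin n → ℤ) (hy : ∀ k, On L (y k)) (hpy : ∀ k v, (p : ℤ) ∣ y k v - x₀ v)
    (f : Fin N → Pl n) :
    ((p : ℤ) ^ r) ^ (N - r ^ (TI L).card) ∣
      (Matrix.of fun k j => eval (y k) (f j)).det := by
  classical
  have h1 : ∀ k, ∃ t : Fin n → ℤ, (∀ v, v ∉ TI L → t v = 0) ∧ ∀ f : Pl n,
      ((eval (y k) f : ℤ) : ZMod (p ^ r)) = ∑ α ∈ Fintype.piFinset (fun _ : Fin n => range r),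
        (∏ v, ((p : ZMod (p ^ r)) * ((t v : ℤ) : ZMod (p ^ r))) ^ α v * iv p r (α v)) *
          ((eval x₀ (dw (TD L) α f) : ℤ) : ZMod (p ^ r)) :=
    fun k => hLOC n p r L x₀ (y k) hp hr hG hx (hy k) (hpy k) hJ
  choose t ht0 ht using h1
  have hκ : Fintype.card {α // α ∈ clsBox (TI L) r} = r ^ (TI L).card := by
    rw [Fintype.card_coe, cls_card]
  obtain ⟨c, hc⟩ : ∃ c : (Fin n → ℕ) → Fin N → ℤ, ∀ α j, ((c α j : ℤ) : ZMod (p ^ r)) =
      (∏ v, iv p r (α v)) * ((eval x₀ (dw (TD L) α (f j)) : ℤ) : ZMod (p ^ r)) :=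
    ⟨fun α j => ZMod.cast ((∏ v, iv p r (α v)) *
      ((eval x₀ (dw (TD L) α (f j)) : ℤ) : ZMod (p ^ r))), fun α j => ZMod.intCast_zmod_cast _⟩
  have h2 : ∀ k j, ∃ E : ℤ, eval (y k) (f j) =
      ∑ α : {α // α ∈ clsBox (TI L) r}, (∏ v, ((p : ℤ) * t k v) ^ (α.1 v)) * c α.1 j +
        (p : ℤ) ^ r * E := by
    intro k j
    have h3 : ((∑ α : {α // α ∈ clsBox (TI L) r},
        (∏ v, ((p : ℤ) * t k v) ^ (α.1 v)) * c α.1 j : ℤ) : ZMod (p ^ r)) =
        ((eval (y k) (f j) : ℤ) : ZMod (p ^ r)) := by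
      rw [ht k (f j)]
      push_cast
      simp_rw [hc]
      rw [Finset.sum_coe_sort (clsBox (TI L) r) (fun α : Fin n → ℕ =>
        (∏ v, ((p : ZMod (p ^ r)) * ((t k v : ℤ) : ZMod (p ^ r))) ^ (α v)) *
          ((∏ v, iv p r (α v)) * ((eval x₀ (dw (TD L) α (f j)) : ℤ) : ZMod (p ^ r))))]
      have hsub : clsBox (TI L) r ⊆ Fintype.piFinset (fun _ : Fin n => range r) := by
        intro α hα
        rw [Fintype.mem_piFinset]
        intro v
        rw [mem_range]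
        by_cases hv : v ∈ TI L
        · exact (cls_mem.1 hα v).1 hv
        · rw [(cls_mem.1 hα v).2 hv]
          omega
      rw [← Finset.sum_subset hsub]
      · apply Finset.sum_congr rfl
        intro α _
        rw [Finset.prod_mul_distrib, mul_assoc]
      · intro α hα hα'
        obtain ⟨v, hv, hv'⟩ : ∃ v, v ∉ TI L ∧ α v ≠ 0 := by
          by_contra hcon
          push Not at hcon
          apply hα'
          rw [cls_mem]
          intro v
          exact ⟨fun _ => mem_range.1 (Fintype.mem_piFinset.1 hα v), hcon v⟩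
        rw [Finset.prod_eq_zero (mem_univ v), zero_mul]
        rw [ht0 k v hv, Int.cast_zero, mul_zero, zero_pow hv', zero_mul]
    rw [ZMod.intCast_eq_intCast_iff_dvd_sub] at h3
    obtain ⟨E, hE⟩ := h3
    refine ⟨E, ?_⟩
    push_cast at hE
    linarith
  choose E hE using h2
  have h4 : (Matrix.of fun k j => eval (y k) (f j)) =
      (Matrix.of fun k (α : {α // α ∈ clsBox (TI L) r}) => ∏ v, ((p : ℤ) * t k v) ^ (α.1 v)) *
      (Matrix.of fun (α : {α // α ∈ clsBox (TI L) r}) j => c α.1 j) +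
      ((p : ℤ) ^ r) • Matrix.of E := by
    ext k j
    rw [Matrix.add_apply, Matrix.smul_apply, Matrix.mul_apply]
    simp only [Matrix.of_apply, smul_eq_mul]
    exact hE k j
  rw [h4, ← hκ]
  exact hDTD N _ _ _ _ _ _

theorem cls_poly {n N : ℕ} {a : Fin N → Fin n → ℕ} (ha : Function.Injective a)
    {G0 : Fin N → ℤ} (hG0 : G0 ≠ 0) {T : Finset (Fin n)} {P : ℕ}
    (hbox : ∀ j, a j ∈ clsBox T P) :
    ∃ G : Pl n, G ≠ 0 ∧ G.vars ⊆ T ∧ G.totalDegree ≤ n * P ∧ nm G ≤ ∑ j, |(G0 j : ℝ)| ∧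
      ∀ y, eval y G = ∑ j, G0 j * ∏ v, y v ^ a j v := by
  classical
  have hinj : Function.Injective (fun j => clsE (a j)) := fun j k h => ha (clsE_inj h)
  have hco : ∀ m, coeff m (∑ j, monomial (clsE (a j)) (G0 j) : Pl n) =
      ∑ j, if clsE (a j) = m then G0 j else 0 := by
    intro m
    rw [coeff_sum]
    apply Finset.sum_congr rfl
    intro j _
    rw [coeff_monomial]
  have hcj : ∀ j, coeff (clsE (a j)) (∑ j, monomial (clsE (a j)) (G0 j) : Pl n) = G0 j := by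
    intro j
    rw [hco, Finset.sum_eq_single j]
    · rw [if_pos rfl]
    · intro k _ hk
      rw [if_neg]
      intro h
      exact hk (hinj h)
    · intro h
      exact absurd (mem_univ j) h
  have hsup : ∀ m ∈ (∑ j, monomial (clsE (a j)) (G0 j) : Pl n).support, ∃ j,
      clsE (a j) = m := by
    intro m hm
    by_contra hcon
    push Not at hcon
    rw [mem_support_iff, hco] at hm
    apply hm
    apply Finset.sum_eq_zero
    intro j _
    rw [if_neg (hcon j)]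
  refine ⟨∑ j, monomial (clsE (a j)) (G0 j), ?_, ?_, ?_, ?_, ?_⟩
  · intro h
    apply hG0
    funext j
    have h1 := hcj j
    rw [h, coeff_zero] at h1
    exact h1.symm
  · intro v hv
    rw [mem_vars_iff_mem_support] at hv
    obtain ⟨d, hd, hvd⟩ := hv
    obtain ⟨j, rfl⟩ := hsup d hd
    by_contra hvT
    rw [Finsupp.mem_support_iff, clsE_apply] at hvd
    exact hvd ((cls_mem.1 (hbox j) v).2 hvT)
  · unfold totalDegree
    apply Finset.sup_le
    intro d hd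
    obtain ⟨j, rfl⟩ := hsup d hd
    rw [Finsupp.sum_fintype _ _ (fun _ => rfl)]
    calc ∑ v, clsE (a j) v ≤ ∑ _v : Fin n, P := by
          apply Finset.sum_le_sum
          intro v _
          rw [clsE_apply]
          by_cases hv : v ∈ T
          · exact ((cls_mem.1 (hbox j) v).1 hv).le
          · rw [(cls_mem.1 (hbox j) v).2 hv]
            exact Nat.zero_le _
      _ = n * P := by simp
  · unfold nm
    calc ∑ m ∈ (∑ j, monomial (clsE (a j)) (G0 j) : Pl n).support,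
          |((coeff m (∑ j, monomial (clsE (a j)) (G0 j) : Pl n) : ℤ) : ℝ)| ≤
        ∑ m ∈ univ.image (fun j => clsE (a j)),
          |((coeff m (∑ j, monomial (clsE (a j)) (G0 j) : Pl n) : ℤ) : ℝ)| := by
          apply Finset.sum_le_sum_of_subset_of_nonneg
          · intro m hm
            obtain ⟨j, hj⟩ := hsup m hm
            exact mem_image.2 ⟨j, mem_univ _, hj⟩
          · intro m _ _
            exact abs_nonneg _
      _ = ∑ j, |(G0 j : ℝ)| := by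
          rw [Finset.sum_image (fun j _ k _ h => hinj h)]
          apply Finset.sum_congr rfl
          intro j _
          rw [hcj]
  · intro y
    rw [map_sum]
    apply Finset.sum_congr rfl
    intro j _
    rw [cls_eval]

theorem cls_one (hLOC : T_LOC) (hDTD : T_DTD) (hRNK : T_RNK) (n k : ℕ) (δ : ℝ) (hδ : 0 < δ) :
    ∃ (B₁ : ℕ) (Y₀ : ℝ), 2 ≤ Y₀ ∧ ∀ (Y : ℝ) (L : Tw n) (g : Pl n)
    (i : Fin n) (p : ℕ) (x₀ : Fin n → ℤ) (S : Finset (Fin n → ℤ)), Y₀ ≤ Y → Gd L → i ∈ TI L →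
    p.Prime → Y ^ δ ≤ p → x₀ ∈ S → ¬ (p : ℤ) ∣ eval x₀ (TJ ((g, i) :: L)) →
    (∀ y ∈ S, (∀ v, 1 ≤ y v) ∧ ∏ v, (y v : ℝ) ≤ Y ∧ (∀ v, (p : ℤ) ∣ y v - x₀ v) ∧
      On ((g, i) :: L) y) → (TI L).card = k + 1 →
    ∃ G : Pl n, G ≠ 0 ∧ G.vars ⊆ TI L ∧ Cx Y B₁ G ∧ ∀ y ∈ S, eval y G = 0 := by
  obtain ⟨μ, hμ1, hμ⟩ : ∃ μ : ℕ, 1 ≤ μ ∧ 4 ≤ δ * μ := by
    refine ⟨⌈4 / δ⌉₊ + 1, by omega, ?_⟩
    have h1 := Nat.le_ceil (4 / δ)
    push_cast
    rw [div_le_iff₀ hδ] at h1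
    nlinarith
  obtain ⟨P, hP⟩ : ∃ P, P = 2 * μ ^ k := ⟨_, rfl⟩
  obtain ⟨N, hN⟩ : ∃ N, N = P ^ (k + 1) := ⟨_, rfl⟩
  obtain ⟨N2, hN2⟩ : ∃ N2, N2 = 2 ^ k * μ ^ (k * (k + 1)) := ⟨_, rfl⟩
  obtain ⟨r, hr⟩ : ∃ r, r = μ ^ (k + 1) := ⟨_, rfl⟩
  have hP1 : 1 ≤ P := by
    rw [hP]
    have := Nat.one_le_pow k μ hμ1
    omega
  have hN1 : 1 ≤ N := by
    rw [hN]
    exact Nat.one_le_pow _ _ hP1
  have hr1 : 1 ≤ r := by
    rw [hr]
    exact Nat.one_le_pow _ _ hμ1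
  have hNN : N = 2 * N2 := by
    rw [hN, hP, hN2, mul_pow, ← pow_mul, pow_succ]
    ring
  have hrk : r ^ k ≤ N2 := by
    rw [hr, hN2, ← pow_mul, mul_comm (k + 1) k]
    exact Nat.le_mul_of_pos_left _ (by positivity)
  refine ⟨1 + P * N + n * P, 2 + (N + 1) + (r : ℝ) ^ (1 / δ), ?_, ?_⟩
  · have h1 : (0 : ℝ) ≤ (r : ℝ) ^ (1 / δ) := Real.rpow_nonneg (Nat.cast_nonneg r) _
    have h2 : (0 : ℝ) ≤ N := Nat.cast_nonneg N
    linarith
  intro Y L g i p x₀ S hY hG hi hp hYp hx₀ hJ hS hcard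
  have hrp0 : (0 : ℝ) ≤ (r : ℝ) ^ (1 / δ) := Real.rpow_nonneg (Nat.cast_nonneg r) _
  have hN0 : (0 : ℝ) ≤ N := Nat.cast_nonneg N
  have hY2 : 2 ≤ Y := by linarith
  have hY1 : 1 ≤ Y := by linarith
  have hY0 : 0 < Y := by linarith
  have hNY : (N : ℝ) < Y := by linarith
  have hrY : (r : ℝ) ≤ Y ^ δ := by
    calc (r : ℝ) = ((r : ℝ) ^ (1 / δ)) ^ δ := by
          rw [← Real.rpow_mul (Nat.cast_nonneg r), one_div, inv_mul_cancel₀ hδ.ne',
            Real.rpow_one]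
      _ ≤ Y ^ δ := Real.rpow_le_rpow hrp0 (by linarith) hδ.le
  have hrp : r ≤ p := by exact_mod_cast hrY.trans hYp
  have hp1 : 1 ≤ p := hp.one_lt.le
  have hGd : Gd ((g, i) :: L) := ⟨hi, hG⟩
  have hTI : (TI ((g, i) :: L)).card = k := by
    change ((TI L).erase i).card = k
    rw [Finset.card_erase_of_mem hi, hcard]
    rfl
  -- the monomials
  have hbc : Fintype.card {α // α ∈ clsBox (TI L) P} = N := by
    rw [Fintype.card_coe, cls_card, hcard, hN]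
  have e : Fin N ≃ {α // α ∈ clsBox (TI L) P} := (Fintype.equivFinOfCardEq hbc).symm
  have hae : Function.Injective (fun j => (e j).1) :=
    fun j l h => e.injective (Subtype.ext h)
  have hbox : ∀ j, (e j).1 ∈ clsBox (TI L) P := fun j => (e j).2
  have hle : ∀ j v, (e j).1 v ≤ P - 1 := by
    intro j v
    by_cases hv : v ∈ TI L
    · have := (cls_mem.1 (hbox j) v).1 hv
      omega
    · rw [(cls_mem.1 (hbox j) v).2 hv]
      exact Nat.zero_le _
  have hT1 : (1 : ℝ) ≤ Y ^ (P - 1) := one_le_pow₀ hY1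
  have hval : ∀ j, ∀ y ∈ S, |((∏ v, y v ^ (e j).1 v : ℤ) : ℝ)| ≤ Y ^ (P - 1) := by
    intro j y hy
    exact cls_val (hle j) (hS y hy).1 (hS y hy).2.1
  have hfac : (N.factorial : ℝ) ≤ (N : ℝ) ^ N := by exact_mod_cast Nat.factorial_le_pow N
  have hfac2 : (N.factorial : ℝ) < Y ^ N :=
    lt_of_le_of_lt hfac (pow_lt_pow_left₀ hNY hN0 (by omega))
  have hpow : Y ^ N * (Y ^ (P - 1)) ^ N = Y ^ (P * N) := by
    rw [← pow_mul, ← pow_add]
    congr 1
    obtain ⟨Q, rfl⟩ : ∃ Q, P = Q + 1 := ⟨P - 1, by omega⟩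
    simp only [Nat.add_sub_cancel]
    ring
  have hupp : (N.factorial : ℝ) * (Y ^ (P - 1)) ^ N < Y ^ (P * N) := by
    rw [← hpow]
    exact mul_lt_mul_of_pos_right hfac2 (by positivity)
  have hdet : ∀ y : Fin N → Fin n → ℤ, (∀ l, y l ∈ S) →
      (Matrix.of fun l j => ∏ v, y l v ^ (e j).1 v).det = 0 := by
    intro y hy
    by_contra hne
    have h1 := cls_mat hLOC hDTD ((g, i) :: L) x₀ hp hr1 hrp hGd (hS x₀ hx₀).2.2.2 hJ y
      (fun l => (hS _ (hy l)).2.2.2) (fun l v => (hS _ (hy l)).2.2.1 v)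
      (fun j => monomial (clsE (e j).1) 1)
    have h2 : (Matrix.of fun (l : Fin N) (j : Fin N) =>
        eval (y l) (monomial (clsE (e j).1) (1 : ℤ))) =
        Matrix.of fun l j => ∏ v, y l v ^ (e j).1 v := by
      ext l j
      simp only [Matrix.of_apply]
      rw [cls_eval, one_mul]
    rw [h2, hTI] at h1
    have h3 : ((p : ℤ) ^ r) ^ (N - r ^ k) ≤
        |(Matrix.of fun l j => ∏ v, y l v ^ (e j).1 v).det| := by
      apply Int.le_of_dvd (abs_pos.2 hne)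
      rw [dvd_abs]
      exact h1
    have h4 : ((p : ℝ) ^ r) ^ (N - r ^ k) ≤
        |((Matrix.of fun l j => ∏ v, y l v ^ (e j).1 v).det : ℝ)| := by exact_mod_cast h3
    have h5 : |((Matrix.of fun l j => ∏ v, y l v ^ (e j).1 v).det : ℝ)| ≤
        N.factorial * (Y ^ (P - 1)) ^ N := by
      have h6 : (((Matrix.of fun l j => ∏ v, y l v ^ (e j).1 v).det : ℤ) : ℝ) =
          ((Matrix.of fun l j => ∏ v, y l v ^ (e j).1 v).map (Int.castRingHom ℝ)).det := by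
        rw [← RingHom.mapMatrix_apply, ← RingHom.map_det]
        rfl
      rw [h6]
      have h7 := Matrix.det_le (A := (Matrix.of fun l j => ∏ v, y l v ^ (e j).1 v).map
        (Int.castRingHom ℝ)) (abv := AbsoluteValue.abs) (x := Y ^ (P - 1)) (fun l j => hval j (y l) (hy l))
      rw [Fintype.card_fin, nsmul_eq_mul] at h7
      exact h7
    have h8 : Y ^ (P * N) ≤ ((p : ℝ) ^ r) ^ (N - r ^ k) := by
      have hp1' : (1 : ℝ) ≤ p := by exact_mod_cast hp1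
      have h9 : ((p : ℝ) ^ r) ^ N2 ≤ ((p : ℝ) ^ r) ^ (N - r ^ k) :=
        pow_le_pow_right₀ (one_le_pow₀ hp1') (by omega)
      refine le_trans ?_ h9
      rw [← pow_mul]
      calc Y ^ (P * N) = Y ^ (((P * N : ℕ) : ℝ)) := (Real.rpow_natCast _ _).symm
        _ ≤ Y ^ (δ * ((r * N2 : ℕ) : ℝ)) := by
            apply Real.rpow_le_rpow_of_exponent_le hY1
            rw [hNN, hP, hr]
            push_cast
            have h10 : (0 : ℝ) ≤ (μ : ℝ) ^ k * N2 := by positivity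
            calc 2 * (μ : ℝ) ^ k * (2 * N2) = 4 * ((μ : ℝ) ^ k * N2) := by ring
              _ ≤ (δ * μ) * ((μ : ℝ) ^ k * N2) := mul_le_mul_of_nonneg_right hμ h10
              _ = δ * ((μ : ℝ) ^ (k + 1) * N2) := by ring
        _ = (Y ^ δ) ^ (r * N2) := by
            rw [Real.rpow_mul hY0.le, Real.rpow_natCast]
        _ ≤ (p : ℝ) ^ (r * N2) := pow_le_pow_left₀ (by positivity) hYp _
    linarith
  obtain ⟨G0, hG0, hG0le, hG0S⟩ := hRNK N (Y ^ (P - 1)) (Fin n → ℤ) S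
    (fun j y => ∏ v, y v ^ (e j).1 v) hN1 hT1 hval hdet
  obtain ⟨G, hGne, hGv, hGd, hGn, hGe⟩ := cls_poly hae hG0 hbox
  refine ⟨G, hGne, hGv, ⟨?_, ?_⟩, ?_⟩
  · exact hGd.trans (by omega)
  · calc nm G ≤ ∑ j, |(G0 j : ℝ)| := hGn
      _ ≤ ∑ _j : Fin N, (N.factorial : ℝ) * (Y ^ (P - 1)) ^ N :=
          Finset.sum_le_sum fun j _ => hG0le j
      _ = N * (N.factorial * (Y ^ (P - 1)) ^ N) := by simp
      _ ≤ Y * Y ^ (P * N) := mul_le_mul hNY.le hupp.le (by positivity) hY0.le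
      _ = Y ^ (1 + P * N) := by rw [pow_add, pow_one]
      _ ≤ Y ^ (1 + P * N + n * P) := pow_le_pow_right₀ hY1 (by omega)
  · intro y hy
    rw [hGe]
    exact hG0S y hy

theorem cls_mono {n : ℕ} {Y : ℝ} (hY : 1 ≤ Y) {B B' : ℕ} (hB : B ≤ B') {f : Pl n}
    (h : Cx Y B f) : Cx Y B' f :=
  ⟨h.deg.trans hB, h.le.trans (pow_le_pow_right₀ hY hB)⟩

theorem pf_CLS (hLOC : T_LOC) (hDTD : T_DTD) (_hCNT : T_CNT) (hRNK : T_RNK) : T_CLS := by
  intro n δ hδ
  choose B Y0 hY0 hB using fun k => cls_one hLOC hDTD hRNK n k δ hδ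
  refine ⟨∑ k ∈ range (n + 1), B k, ∑ k ∈ range (n + 1), Y0 k, ?_, ?_⟩
  · calc (2 : ℝ) ≤ Y0 0 := hY0 0
      _ ≤ ∑ k ∈ range (n + 1), Y0 k :=
        Finset.single_le_sum (f := Y0) (fun k _ => by linarith [hY0 k])
          (mem_range.2 (Nat.succ_pos n))
  intro Y L g i p x₀ S hY hG hi hp hYp hx₀ hJ hS
  obtain ⟨k, hk⟩ : ∃ k, (TI L).card = k + 1 := by
    have := Finset.card_pos.2 ⟨i, hi⟩
    exact ⟨(TI L).card - 1, by omega⟩
  have hkn : k ∈ range (n + 1) := by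
    have h1 : (TI L).card ≤ n := by
      have := Finset.card_le_univ (TI L)
      rwa [Fintype.card_fin] at this
    rw [mem_range]
    omega
  have hYk : Y0 k ≤ Y := le_trans
    (Finset.single_le_sum (f := Y0) (fun k _ => by linarith [hY0 k]) hkn) hY
  have hBk : B k ≤ ∑ k ∈ range (n + 1), B k :=
    Finset.single_le_sum (f := B) (fun k _ => Nat.zero_le _) hkn
  obtain ⟨G, h1, h2, h3, h4⟩ := hB k Y L g i p x₀ S hYk hG hi hp hYp hx₀ hJ hS hk
  exact ⟨G, h1, h2, cls_mono (by linarith [hY0 k]) hBk h3, h4⟩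

end Pool.Agent.H54.TFX
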